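import Mathlib

open Complex

namespace Pool.Agent.Results.MP_c4a6c0_an.Triple

/-- closed first quadrant. -/
def Q : Set ℂ := {z | 0 ≤ z.re ∧ 0 ≤ z.im}

/-- even, real, entire. -/
def ERE (f : ℂ → ℂ) : Prop :=
  Differentiable ℂ f ∧ (∀ z, f (-z) = f z) ∧ ∀ x : ℝ, (f x).im = 0

/-- `F` is not identically zero and has monotonic zeros in `Q`. -/
def Mono (F : ℂ → ℂ) : Prop :=
  F ≠ 0 ∧ ∀ a ∈ Q, ∀ b ∈ Q, F a = 0 → F b = 0 →
    (a.re = b.re → a = b) ∧ (a.re < b.re → a.im ≤ b.im)

/-- every nonnegative combination that is not identically zero has monotonic zeros. -/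
def Compatible {k : ℕ} (f : Fin k → ℂ → ℂ) : Prop :=
  ∀ c : Fin k → ℝ, (∀ j, 0 ≤ c j) → (fun z => ∑ j, (c j : ℂ) * f j z) ≠ 0 →
    Mono fun z => ∑ j, (c j : ℂ) * f j z

lemma hyp {a b : ℂ} (ha : a ∈ Q) (hb : b ∈ Q) (h : (a ^ 2).re = (b ^ 2).re) :
    (a.re = b.re → a = b) ∧ (a.re < b.re → a.im ≤ b.im) := by
  obtain ⟨a1, a2⟩ := ha
  obtain ⟨b1, b2⟩ := hb
  simp only [sq, mul_re] at h
  constructor
  · intro e
    refine Complex.ext e ?_
    rw [e] at h
    exact (mul_self_inj a2 b2).1 (by linarith)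
  · intro hl
    by_contra hc
    push Not at hc
    nlinarith

lemma pair (s t : ℝ) (hst : s ≠ t) :
    Compatible ![fun z => exp (s * z ^ 2), fun z => exp (t * z ^ 2)] := by
  intro c hc hne
  refine ⟨hne, fun a ha b hb h1 h2 => hyp ha hb ?_⟩
  simp only [Fin.sum_univ_two, Matrix.cons_val_zero, Matrix.cons_val_one] at h1 h2 hne
  have key : ∀ z : ℂ, (c 0 : ℂ) * exp (s * z ^ 2) + c 1 * exp (t * z ^ 2) = 0 →
      c 0 * Real.exp ((s - t) * (z ^ 2).re) = c 1 := by
    intro z hz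
    have := congrArg norm (eq_neg_of_add_eq_zero_left hz)
    rw [norm_neg, norm_mul, norm_mul, norm_exp, norm_exp, re_ofReal_mul, re_ofReal_mul,
      norm_real, norm_real, Real.norm_of_nonneg (hc 0), Real.norm_of_nonneg (hc 1)] at this
    rw [sub_mul, Real.exp_sub, mul_div_assoc', this]
    field_simp
  have k1 := key a h1
  have k2 := key b h2
  have h0 : c 0 ≠ 0 := by
    intro h0
    apply hne
    have : c 1 = 0 := by rw [← k1, h0, zero_mul]
    funext z
    simp [h0, this]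
  have := Real.exp_injective (mul_left_cancel₀ h0 (k1.trans k2.symm))
  exact mul_left_cancel₀ (sub_ne_zero.2 hst) this

theorem result : ∃ f : Fin 3 → ℂ → ℂ, (∀ j, ERE (f j)) ∧ (∀ j, Mono (f j)) ∧
    (∀ i j, i < j → Compatible ![f i, f j]) ∧ ¬ Compatible f := by
  let s : Fin 3 → ℝ := ![1, 0, -1]
  refine ⟨fun j z => exp (s j * z ^ 2), fun j => ⟨by fun_prop, fun z => by simp, fun x => ?_⟩,
    fun j => ⟨fun h => exp_ne_zero _ (congrFun h 0), fun a _ b _ h _ => absurd h (exp_ne_zero _)⟩,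
    fun i j hij => pair _ _ ?_, fun h => ?_⟩
  · have : (s j : ℂ) * (x : ℂ) ^ 2 = ((s j * x ^ 2 : ℝ) : ℂ) := by push_cast; ring
    simp only [this, exp_ofReal_im]
  · fin_cases i <;> fin_cases j <;> simp [s] at hij ⊢ <;> norm_num
  · set T : ℝ := Real.exp (15 * Real.pi / 8) with hT
    have hT0 : 0 < T := Real.exp_pos _
    set r : ℝ := Real.sqrt (Real.pi / 2) with hr
    have hr0 : 0 < r := Real.sqrt_pos.2 (by positivity)
    have hr2 : (r : ℂ) ^ 2 = Real.pi / 2 := by
      have : r ^ 2 = Real.pi / 2 := Real.sq_sqrt (by positivity)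
      exact_mod_cast this
    have hc : ∀ j, 0 ≤ (![1, 1 + T, T] : Fin 3 → ℝ) j := by
      intro j; fin_cases j <;> simp <;> positivity
    have := (h ![1, 1 + T, T] hc (fun h0 => by
      have := congrFun h0 0
      simp [Fin.sum_univ_three] at this
      have h2 : (1 : ℝ) + (1 + T) + T = 0 := by exact_mod_cast this
      linarith)).2 (r + r * I) (by simp [Q, hr0.le]) (2 * r + r / 2 * I)
      (by simp [Q]; constructor <;> positivity) ?_ ?_
    · have := this.2 (by simp; linarith)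
      simp at this
      linarith
    · have e : ((r : ℂ) + r * I) ^ 2 = Real.pi * I := by
        have : ((r : ℂ) + r * I) ^ 2 = r ^ 2 * (1 + I ^ 2) + 2 * r ^ 2 * I := by ring
        rw [this, hr2, I_sq]; ring
      simp [Fin.sum_univ_three, s, e, exp_neg]
    · have e : (2 * (r : ℂ) + r / 2 * I) ^ 2 = ((15 * Real.pi / 8 : ℝ) : ℂ) + Real.pi * I := by
        have : (2 * (r : ℂ) + r / 2 * I) ^ 2 = r ^ 2 * (4 + I ^ 2 / 4) + 2 * r ^ 2 * I := by ring
        rw [this, hr2, I_sq]; push_cast; ring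
      have e2 : exp (((15 * Real.pi / 8 : ℝ) : ℂ) + Real.pi * I) = -T := by
        rw [exp_add, exp_pi_mul_I, hT, ofReal_exp]; ring
      have hTc : (T : ℂ) ≠ 0 := by exact_mod_cast hT0.ne'
      simp only [Fin.sum_univ_three, s, e, Matrix.cons_val_zero, Matrix.cons_val_one,
        Matrix.cons_val_two, Matrix.head_cons, Matrix.tail_cons, ofReal_one, ofReal_zero,
        ofReal_neg, one_mul, zero_mul, neg_mul, exp_neg, e2, exp_zero]
      push_cast
      field_simp
      ring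

end Pool.Agent.Results.MP_c4a6c0_an.Triple
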